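import Mathlib
import Pool.Agent.H618Z.LatinD

set_option autoImplicit false

/-!
# A quasigroup with primitive autoparatopism group that is not isotopic to a Moufang loop
-/

namespace Pool.Agent.Results.MP_b62fd5_al.HomogeneousSquare

open Pool.Agent.H618Z.LatinDefs

theorem result : ∃ (T : Type) (mul : T → T → T), Infinite T ∧ IsQuasigroup mul ∧
    PrimitiveOnCells mul ∧
    (∀ (G : Type) [Group G], ¬ Isotopic mul (fun x y : G => x * y)) ∧
    (∀ (F : Type) [Field F], ¬ Isotopic mul (Paige.mul (F := F))) ∧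
    ∀ (S : Type) (n : S → S → S), IsMoufangLoop n → ¬ Isotopic mul n := by
  obtain ⟨m, h1, h2, h3⟩ := Pool.Agent.H618Z.Latin.main
  exact ⟨ℕ, m, inferInstance, h1, h2,
    fun G _ h => h3 (.of_isotopic h (Pool.Agent.H618Z.Latin.bolClosed_group G)),
    fun F _ h => h3 (.of_isotopic h (Pool.Agent.H618Z.Latin.bolClosed_paige F)),
    fun _ n hn h => h3 (.of_isotopic h (Pool.Agent.H618Z.Latin.bolClosed_moufang n hn))⟩

end Pool.Agent.Results.MP_b62fd5_al.HomogeneousSquare
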